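import Pool.Agent.Run7.h104.Q2.Defs2

/-!
# Piece WEX of project Q2 (helper104, MP_5bfbcb_an)
-/

set_option autoImplicit false

namespace Pool.Agent.Run7.h416.Q2

open MeasureTheory AddCircle Complex Set Filter Topology Pool.Agent.W767.HL
open Pool.Agent.Run7.h104.Q2

theorem exists_ze {z : ℂ} (hz : ‖z‖ = 1) : ∃ θ : Ci, ze θ = z := by
  refine ⟨((Complex.arg z / (2 * Real.pi) : ℝ) : Ci), ?_⟩
  rw [ze_coe]
  have h1 : (2 * Real.pi * Complex.I * ((Complex.arg z / (2 * Real.pi) : ℝ) : ℂ)) =
      Complex.arg z * Complex.I := by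
    push_cast
    have : (Real.pi : ℂ) ≠ 0 := by exact_mod_cast Real.pi_ne_zero
    field_simp
  rw [h1]
  have h2 := Complex.norm_mul_exp_arg_mul_I z
  rw [hz] at h2
  simpa using h2

theorem P_zero (θ : Ci) : P 0 θ = 1 := by
  unfold P
  rw [norm_zero, sub_zero, norm_ze]
  norm_num

/-- **WEX**. -/
theorem t_WEX : S_APX → S_WEX := by
  intro hAPX D0 σ G hD0 hG
  set lam : ℝ := Real.exp (-(D0 / 32)) with hlam
  have hlam0 : 0 < lam := Real.exp_pos _
  have hcG : Continuous fun θ : Ci => ‖ev G (ze θ)‖ := (continuous_ev_ze G).norm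
  set χ : Ci → ℝ := fun θ => max 0 (min 1 (2 - Real.exp σ * ‖ev G (ze θ)‖)) with hχ
  have hχc : Continuous χ :=
    continuous_const.max (continuous_const.min (continuous_const.sub (continuous_const.mul hcG)))
  have hχ1 : ∀ θ, χ θ ≤ 1 := fun θ => max_le zero_le_one (min_le_left _ _)
  set φ : Ci → ℝ := fun θ => χ θ - lam * ‖ev G (ze θ)‖ with hφ
  have hφc : Continuous φ := hχc.sub (continuous_const.mul hcG)
  obtain ⟨W, hW, hWφ⟩ := hAPX φ hφc lam hlam0
  have hWc : Continuous fun θ : Ci => (W (ze θ)).re :=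
    Complex.continuous_re.comp (hW.continuous.comp continuous_ze)
  -- the Poisson formula gives the upper bound
  have hup : ∀ z : ℂ, ‖z‖ < 1 → (W z).re ≤ 1 - lam * PI (fun θ => ‖ev G (ze θ)‖) z := by
    intro z hz
    rw [← poisson_re hW hz]
    have h1 : ∫ θ, P z θ * (W (ze θ)).re ∂mu ≤
        ∫ θ, (P z θ - lam * (P z θ * ‖ev G (ze θ)‖)) ∂mu := by
      refine integral_mono (integrable_of_cont ((continuous_P hz).mul hWc))
        (integrable_of_cont ((continuous_P hz).sub
          (continuous_const.mul ((continuous_P hz).mul hcG)))) fun θ => ?_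
      have h2 := (hWφ θ).2
      have h3 := P_pos hz θ
      have h4 := hχ1 θ
      have h5 : (W (ze θ)).re ≤ 1 - lam * ‖ev G (ze θ)‖ := by
        have : φ θ = χ θ - lam * ‖ev G (ze θ)‖ := rfl
        linarith
      have h6 := mul_le_mul_of_nonneg_left h5 h3.le
      simp only
      linarith
    refine h1.trans (le_of_eq ?_)
    have i1 : Integrable (fun θ : Ci => P z θ) mu := integrable_of_cont (continuous_P hz)
    have i2 : Integrable (fun θ : Ci => lam * (P z θ * ‖ev G (ze θ)‖)) mu :=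
      integrable_of_cont (continuous_const.mul ((continuous_P hz).mul hcG))
    rw [integral_sub i1 i2, integral_P hz, integral_const_mul]
    rfl
  have hPI0 : ∀ z : ℂ, ‖z‖ < 1 → 0 ≤ PI (fun θ => ‖ev G (ze θ)‖) z := fun z hz =>
    integral_nonneg fun θ => mul_nonneg (P_pos hz θ).le (norm_nonneg _)
  refine ⟨W, hW, ?_, ?_, ?_, ?_⟩
  · intro z hz
    rcases hz.lt_or_eq with h | h
    · have h1 := hup z h
      have h2 := mul_nonneg hlam0.le (hPI0 z h)
      linarith
    · obtain ⟨θ, rfl⟩ := exists_ze h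
      have h1 := (hWφ θ).2
      have h2 := hχ1 θ
      have h3 : φ θ = χ θ - lam * ‖ev G (ze θ)‖ := rfl
      have h4 := mul_nonneg hlam0.le (norm_nonneg (ev G (ze θ)))
      linarith
  · intro z hz hpos
    have h1 := hup z hz
    have h2 : lam * PI (fun θ => ‖ev G (ze θ)‖) z ≤ 1 := by linarith
    have h3 : Real.exp (D0 / 32) * lam = 1 := by
      rw [hlam, ← Real.exp_add, add_neg_cancel, Real.exp_zero]
    calc PI (fun θ => ‖ev G (ze θ)‖) z
        = Real.exp (D0 / 32) * (lam * PI (fun θ => ‖ev G (ze θ)‖) z) := by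
          rw [← mul_assoc, h3, one_mul]
      _ ≤ Real.exp (D0 / 32) * 1 := mul_le_mul_of_nonneg_left h2 (Real.exp_pos _).le
      _ = _ := mul_one _
  · intro z hz hpos
    obtain ⟨θ, rfl⟩ := exists_ze hz
    have h1 := (hWφ θ).2
    have h3 : φ θ = χ θ - lam * ‖ev G (ze θ)‖ := rfl
    have h4 := mul_nonneg hlam0.le (norm_nonneg (ev G (ze θ)))
    have h5 : 0 < χ θ := by linarith
    have h6 : 0 < 2 - Real.exp σ * ‖ev G (ze θ)‖ := by
      have h7 : 0 < max 0 (min 1 (2 - Real.exp σ * ‖ev G (ze θ)‖)) := h5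
      rcases lt_max_iff.1 h7 with h8 | h8
      · exact absurd h8 (lt_irrefl _)
      · exact (lt_min_iff.1 h8).2
    have h9 : Real.exp (-σ) * Real.exp σ = 1 := by
      rw [← Real.exp_add, neg_add_cancel, Real.exp_zero]
    calc ‖ev G (ze θ)‖ = Real.exp (-σ) * (Real.exp σ * ‖ev G (ze θ)‖) := by
          rw [← mul_assoc, h9, one_mul]
      _ ≤ Real.exp (-σ) * 2 := mul_le_mul_of_nonneg_left (by linarith) (Real.exp_pos _).le
      _ = _ := mul_comm _ _
  · have hGi : ∫ θ, ‖ev G (ze θ)‖ ∂mu ≤ 1 := by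
      have h1 : ∫ θ, ‖ev G (ze θ)‖ ∂mu ≤ ∫ θ, (1 / 2 + 1 / 2 * ‖ev G (ze θ)‖ ^ 2) ∂mu := by
        refine integral_mono (integrable_of_cont hcG)
          (integrable_of_cont (continuous_const.add (continuous_const.mul (hcG.pow 2)))) fun θ => ?_
        simp only
        nlinarith [sq_nonneg (‖ev G (ze θ)‖ - 1)]
      have i1 : Integrable (fun _ : Ci => (1 / 2 : ℝ)) mu := integrable_const _
      have i2 : Integrable (fun θ : Ci => 1 / 2 * ‖ev G (ze θ)‖ ^ 2) mu :=
        integrable_of_cont (continuous_const.mul (hcG.pow 2))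
      rw [integral_add i1 i2, integral_const_mul, integral_const, probReal_univ, one_smul] at h1
      linarith
    have h0 : (W 0).re = ∫ θ, (W (ze θ)).re ∂mu := by
      rw [← poisson_re hW (w := 0) (by simp)]
      refine integral_congr_ae (Filter.Eventually.of_forall fun θ => ?_)
      simp only [P_zero, one_mul]
    have h1 : ∫ θ, (χ θ - lam * ‖ev G (ze θ)‖ - lam) ∂mu ≤ (W 0).re := by
      rw [h0]
      refine integral_mono (integrable_of_cont (hφc.sub continuous_const))
        (integrable_of_cont hWc) fun θ => ?_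
      exact (hWφ θ).1
    have i1 : Integrable (fun θ : Ci => χ θ - lam * ‖ev G (ze θ)‖) mu := integrable_of_cont hφc
    have i2 : Integrable (fun _ : Ci => lam) mu := integrable_const _
    have i3 : Integrable (fun θ : Ci => lam * ‖ev G (ze θ)‖) mu :=
      integrable_of_cont (continuous_const.mul hcG)
    rw [integral_sub i1 i2, integral_sub (integrable_of_cont hχc) i3,
      integral_const_mul, integral_const, probReal_univ, one_smul] at h1
    have hms : MeasurableSet {θ : Ci | ‖ev G (ze θ)‖ ≤ Real.exp (-σ)} :=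
      (isClosed_le hcG continuous_const).measurableSet
    have h2 : mu.real {θ | ‖ev G (ze θ)‖ ≤ Real.exp (-σ)} ≤ ∫ θ, χ θ ∂mu := by
      have h3 : ∫ θ, Set.indicator {θ : Ci | ‖ev G (ze θ)‖ ≤ Real.exp (-σ)} (fun _ => (1 : ℝ)) θ ∂mu
          = mu.real {θ | ‖ev G (ze θ)‖ ≤ Real.exp (-σ)} := by
        rw [integral_indicator hms, setIntegral_const, smul_eq_mul, mul_one]
      rw [← h3]
      refine integral_mono ((integrable_const _).indicator hms) (integrable_of_cont hχc) fun θ => ?_
      by_cases hθ : θ ∈ {θ : Ci | ‖ev G (ze θ)‖ ≤ Real.exp (-σ)}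
      · rw [Set.indicator_of_mem hθ]
        have h4 : ‖ev G (ze θ)‖ ≤ Real.exp (-σ) := hθ
        have h5 : Real.exp σ * ‖ev G (ze θ)‖ ≤ 1 := by
          calc Real.exp σ * ‖ev G (ze θ)‖ ≤ Real.exp σ * Real.exp (-σ) :=
                mul_le_mul_of_nonneg_left h4 (Real.exp_pos _).le
            _ = 1 := by rw [← Real.exp_add, add_neg_cancel, Real.exp_zero]
        exact le_max_of_le_right (le_min (le_refl _) (by linarith))
      · rw [Set.indicator_of_notMem hθ]
        exact le_max_left _ _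
    have h6 : lam * ∫ θ, ‖ev G (ze θ)‖ ∂mu ≤ lam * 1 := mul_le_mul_of_nonneg_left hGi hlam0.le
    linarith

end Pool.Agent.Run7.h416.Q2
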